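import Pool.Agent.Helper84.WC.Mul
import Pool.Agent.Helper47.WC.Geometry

/-!
# WC-10: the swindle preserves the Roe algebra of the warped cone
-/

open MeasureTheory Topology

open scoped ENNReal ZeroAtInfty InnerProductSpace

namespace Pool.Agent.Helper84.WC

section WC10

variable {M : Type*} [MetricSpace M] [CompactSpace M] [MeasurableSpace M] [BorelSpace M]
variable {G : Type*} [Group G] [MulAction G M]

/-- the `c`-cells whose `f_n`-image meets a cell meeting `A` -/
def wc10_P (σ : ℝ → M → M) (c : Cone M → ℕ) (n : ℕ) (A : Set (Cone M)) : Set (Cone M) :=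
  (c ∘ push σ n) ⁻¹' (c '' A)

omit [CompactSpace M] [MeasurableSpace M] [BorelSpace M] in
lemma wc10_mem {σ : ℝ → M → M} {c : Cone M → ℕ} {n : ℕ} {A : Set (Cone M)} {p : Cone M}
    (S : Set G) (hdiam : ∀ z w, c z = c w → coneDist z w ≤ 2)
    (hp : p ∈ wc10_P σ c n A) : ∃ a ∈ A, warpDist S a (push σ n p) ≤ 2 := by
  obtain ⟨a, ha, hc⟩ := hp
  exact ⟨a, ha, ((warpDist_isAdm S).le_cone _ _).trans (hdiam _ _ hc)⟩

lemma wc10_meas {σ : ℝ → M → M} (hσ : Radial G M σ) {c : Cone M → ℕ} (hc : Measurable c) (n : ℕ)
    (A : Set (Cone M)) : MeasurableSet (wc10_P σ c n A) := by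
  have h : Measurable (push σ n : Cone M → Cone M) := (push_continuous hσ n).measurable
  exact (hc.comp h) (MeasurableSpace.measurableSet_top)

lemma wc10_slab_meas (b : ℝ) : MeasurableSet (slab M b) := by
  have h : Measurable (fun z : Cone M => (z.2 : ℝ)) :=
    measurable_subtype_coe.comp measurable_snd
  exact measurableSet_le h measurable_const

variable {X : Type*} [MeasurableSpace X] {ν : Measure X}

lemma wc10_sub {A B : Set X} (hA : MeasurableSet A) (hB : MeasurableSet B) (h : A ⊆ B) :
    ind ν A * ind ν B = ind ν A := by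
  rw [ind_mul hA hB, Set.inter_eq_left.2 h]

lemma wc10_sub' {A B : Set X} (hA : MeasurableSet A) (hB : MeasurableSet B) (h : A ⊆ B) :
    ind ν B * ind ν A = ind ν A := by
  rw [ind_mul hB hA, Set.inter_eq_right.2 h]

lemma wc10_inner {A : Set X} (hA : MeasurableSet A) (x y : Lp ℂ 2 ν) :
    ⟪x, ind ν A y⟫_ℂ = ⟪ind ν A x, y⟫_ℂ := by
  have h := ContinuousLinearMap.adjoint_inner_left (ind ν A) y x
  rw [← ContinuousLinearMap.star_eq_adjoint, ind_star hA] at h
  exact h.symm

/-- operators with `1_A w 1_{N^c} = 0` -/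
lemma wc10_loc {A N : Set X} (hN : MeasurableSet N) (w : Lp ℂ 2 ν →L[ℂ] Lp ℂ 2 ν)
    (h : ind ν A * w * ind ν Nᶜ = 0) : ind ν A * w = ind ν A * w * ind ν N := by
  calc ind ν A * w = ind ν A * w * (ind ν N + ind ν Nᶜ) := by rw [ind_add_compl hN, mul_one]
    _ = ind ν A * w * ind ν N := by rw [mul_add, h, add_zero]

lemma wc10_cptL {T : Lp ℂ 2 ν →L[ℂ] Lp ℂ 2 ν} (S : Lp ℂ 2 ν →L[ℂ] Lp ℂ 2 ν)
    (h : IsCompactOperator T) : IsCompactOperator (S * T) := h.clm_comp S

lemma wc10_cptR {T : Lp ℂ 2 ν →L[ℂ] Lp ℂ 2 ν} (S : Lp ℂ 2 ν →L[ℂ] Lp ℂ 2 ν)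
    (h : IsCompactOperator T) : IsCompactOperator (T * S) := h.comp_clm S

lemma wc10_sum {T : ℕ → Lp ℂ 2 ν →L[ℂ] Lp ℂ 2 ν} (N : ℕ)
    (h : ∀ n, IsCompactOperator (T n)) :
    IsCompactOperator (∑ n ∈ Finset.range N, T n : Lp ℂ 2 ν →L[ℂ] Lp ℂ 2 ν) := by
  induction N with
  | zero =>
    simp only [Finset.range_zero, Finset.sum_empty]
    exact isCompactOperator_zero
  | succ N ih =>
    rw [Finset.sum_range_succ]
    exact ih.add (h N)

/-! the isometries -/

section Iso

variable {m : Measure M} [IsProbabilityMeasure m] {σ : ℝ → M → M} (hσ : Radial G M σ)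
  {c : Cone M → ℕ} (hc : Measurable c)
  {V : ℕ → Lp ℂ 2 (coneMeasure m) →ₗᵢ[ℂ] Lp ℂ 2 (coneMeasure m)}
  (hV : ∀ (n : ℕ) (D : Set ℕ) (g), ind (coneMeasure m) (c ⁻¹' D) (V n g) =
      V n (ind (coneMeasure m) ((c ∘ push σ n) ⁻¹' D) g))

include hσ hc hV in
lemma wc10_adj (n : ℕ) {A : Set (Cone M)} (hA : MeasurableSet A) :
    star (V n).toContinuousLinearMap * ind (coneMeasure m) A =
      ind (coneMeasure m) (wc10_P σ c n A) * star (V n).toContinuousLinearMap *
        ind (coneMeasure m) A := by
  have hm : Measurable (push σ n : Cone M → Cone M) := (push_continuous hσ n).measurable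
  have hD : MeasurableSet (c ⁻¹' (c '' A)) := hc MeasurableSpace.measurableSet_top
  have h1 : ind (coneMeasure m) (c ⁻¹' (c '' A)) * (V n).toContinuousLinearMap =
      (V n).toContinuousLinearMap * ind (coneMeasure m) (wc10_P σ c n A) := by
    ext1 g
    exact hV n (c '' A) g
  have h2 := congrArg star h1
  rw [star_mul, star_mul, ind_star hD, ind_star (wc10_meas hσ hc n A)] at h2
  rw [← h2, mul_assoc, wc10_sub' hA hD (Set.subset_preimage_image c A)]

include hσ hc hV in
lemma wc10_adj' (n : ℕ) {A : Set (Cone M)} (hA : MeasurableSet A) :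
    ind (coneMeasure m) A * (V n).toContinuousLinearMap =
      ind (coneMeasure m) A * (V n).toContinuousLinearMap *
        ind (coneMeasure m) (wc10_P σ c n A) := by
  have h := congrArg star (wc10_adj hσ hc hV n hA)
  simp only [star_mul, star_star, ind_star hA, ind_star (wc10_meas hσ hc n A)] at h
  conv_lhs => rw [h]
  rw [mul_assoc]

end Iso

theorem swindle_mem (S : Set G) (m : Measure M) [IsProbabilityMeasure m]
    {σ : ℝ → M → M} (hσ : Radial G M σ) (c : Cone M → ℕ) (hc : Measurable c)
    (hdiam : ∀ z w, c z = c w → coneDist z w ≤ 2)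
    (V : ℕ → Lp ℂ 2 (coneMeasure m) →ₗᵢ[ℂ] Lp ℂ 2 (coneMeasure m))
    (hV : ∀ (n : ℕ) (D : Set ℕ) (g), ind (coneMeasure m) (c ⁻¹' D) (V n g) =
      V n (ind (coneMeasure m) ((c ∘ push σ n) ⁻¹' D) g))
    (Φ : (Lp ℂ 2 (coneMeasure m) →L[ℂ] Lp ℂ 2 (coneMeasure m)) →⋆ₙₐ[ℂ]
      (Lp ℂ 2 (coneMeasure m) →L[ℂ] Lp ℂ 2 (coneMeasure m)))
    (w : Lp ℂ 2 (coneMeasure m) →L[ℂ] Lp ℂ 2 (coneMeasure m))
    (hΦ : ∀ T x y, HasSum (fun n => ⟪star (V n).toContinuousLinearMap x,
          T (star (V n).toContinuousLinearMap y)⟫_ℂ) ⟪x, Φ T y⟫_ℂ)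
    (hw : ∀ x y, HasSum (fun n => ⟪star (V (n + 1)).toContinuousLinearMap x,
          star (V n).toContinuousLinearMap y⟫_ℂ
          - ⟪star (V n).toContinuousLinearMap x, star (V n).toContinuousLinearMap y⟫_ℂ)
          (⟪x, w y⟫_ℂ - ⟪x, y⟫_ℂ))
    (R : ℝ) (T : Lp ℂ 2 (coneMeasure m) →L[ℂ] Lp ℂ 2 (coneMeasure m)) (hT : IsRoe S m R T) :
    (∃ R', IsRoe S m R' (Φ T)) ∧ (∃ R', IsRoe S m R' ((V 0).toContinuousLinearMap * T)) ∧
      (∃ R', IsRoe S m R' (w * T)) := by
  have adm : IsAdm S (warpDist S : Cone M → Cone M → ℝ) := warpDist_isAdm S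
  -- basic vector form of the localisation of `star (V n)`
  have key : ∀ (n : ℕ) (A : Set (Cone M)), MeasurableSet A → ∀ x,
      star (V n).toContinuousLinearMap (ind (coneMeasure m) A x) =
        ind (coneMeasure m) (wc10_P σ c n A) (star (V n).toContinuousLinearMap (ind (coneMeasure m) A x)) := by
    intro n A hA x
    have h := wc10_adj hσ hc hV n hA
    exact congrArg (fun L : Lp ℂ 2 (coneMeasure m) →L[ℂ] Lp ℂ 2 (coneMeasure m) => L x) h
  have mP : ∀ n A, MeasurableSet (wc10_P σ c n A) := fun n A => wc10_meas hσ hc n A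
  have mS : ∀ b, MeasurableSet (slab M b) := fun b => wc10_slab_meas b
  -- cells meeting the slab, under `push n`
  have slabP : ∀ (n : ℕ) (b : ℝ) (p : Cone M), p ∈ wc10_P σ c n (slab M b) →
      (p.2 : ℝ) + n ≤ b + 2 := by
    intro n b p hp
    obtain ⟨a, ha, had⟩ := wc10_mem S hdiam hp
    have h1 := (abs_le_warpDist S a (push σ n p)).trans had
    have h2 : ((push σ n p).2 : ℝ) = (p.2 : ℝ) + n := rfl
    rw [h2] at h1
    have h3 : (a.2 : ℝ) ≤ b := ha
    have h4 := (abs_le.1 h1).1
    linarith
  have slabP_sub : ∀ (n : ℕ) (b : ℝ), wc10_P σ c n (slab M b) ⊆ slab M (b + 2) := by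
    intro n b p hp
    have h1 := slabP n b p hp
    have h2 : (0 : ℝ) ≤ n := Nat.cast_nonneg n
    show (p.2 : ℝ) ≤ b + 2
    linarith
  have slabP_empty : ∀ (n : ℕ) (b : ℝ), b + 1 < n → wc10_P σ c n (slab M b) = ∅ := by
    intro n b hn
    rw [Set.eq_empty_iff_forall_notMem]
    intro p hp
    have h1 := slabP n b p hp
    have h2 : (1 : ℝ) ≤ p.2 := p.2.2
    linarith
  -- disjoint sets
  have disj : ∀ (A B : Set (Cone M)), MeasurableSet A → MeasurableSet B → Disjoint A B →
      ∀ x y, ⟪ind (coneMeasure m) A x, ind (coneMeasure m) B y⟫_ℂ = 0 := by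
    intro A B hA hB hAB x y
    rw [wc10_inner hB]
    have : ind (coneMeasure m) B (ind (coneMeasure m) A x) = (ind (coneMeasure m) B * ind (coneMeasure m) A) x := rfl
    rw [this, ind_mul hB hA, (Set.disjoint_iff_inter_eq_empty.1 hAB.symm), ind_empty]
    simp
  refine ⟨⟨2 * R + 4, ?_, ?_, ?_⟩, ⟨R + 2, ?_, ?_, ?_⟩, ?_⟩
  · -- cptL for Φ T
    intro b
    obtain ⟨N, hN⟩ := exists_nat_gt (b + 1)
    have h1 : ind (coneMeasure m) (slab M b) * Φ T = ∑ n ∈ Finset.range N,
        (ind (coneMeasure m) (slab M b) * (V n).toContinuousLinearMap * ind (coneMeasure m) (wc10_P σ c n (slab M b))) *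
          (ind (coneMeasure m) (slab M (b + 2)) * T) * star (V n).toContinuousLinearMap := by
      ext1 y
      refine ext_inner_left ℂ (fun x => ?_)
      have e1 : ⟪x, (ind (coneMeasure m) (slab M b) * Φ T) y⟫_ℂ = ⟪ind (coneMeasure m) (slab M b) x, Φ T y⟫_ℂ :=
        wc10_inner (mS b) x (Φ T y)
      rw [e1]
      have e2 : ∀ n, ⟪star (V n).toContinuousLinearMap (ind (coneMeasure m) (slab M b) x),
          T (star (V n).toContinuousLinearMap y)⟫_ℂ =
          ⟪x, ((ind (coneMeasure m) (slab M b) * (V n).toContinuousLinearMap *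
            ind (coneMeasure m) (wc10_P σ c n (slab M b))) *
          (ind (coneMeasure m) (slab M (b + 2)) * T) * star (V n).toContinuousLinearMap) y⟫_ℂ := by
        intro n
        rw [key n _ (mS b) x, ← wc10_inner (mP n _)]
        rw [ContinuousLinearMap.star_eq_adjoint, ContinuousLinearMap.adjoint_inner_left,
          ← wc10_inner (mS b)]
        congr 1
        have e3 : ind (coneMeasure m) (wc10_P σ c n (slab M b)) * ind (coneMeasure m) (slab M (b + 2)) =
            ind (coneMeasure m) (wc10_P σ c n (slab M b)) := wc10_sub (mP n _) (mS _) (slabP_sub n b)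
        show _ = (ind (coneMeasure m) (slab M b) * (V n).toContinuousLinearMap) ((ind (coneMeasure m) (wc10_P σ c n (slab M b)) *
            ind (coneMeasure m) (slab M (b + 2))) (T _))
        rw [e3]
        rfl
      have h0 : ∀ n ∉ Finset.range N, ⟪star (V n).toContinuousLinearMap (ind (coneMeasure m) (slab M b) x),
          T (star (V n).toContinuousLinearMap y)⟫_ℂ = 0 := by
        intro n hn
        have hn' : b + 1 < n := by
          have : N ≤ n := by simpa using hn
          exact hN.trans_le (by exact_mod_cast this)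
        rw [key n _ (mS b) x, slabP_empty n b hn', ind_empty]
        simp
      have h2 := (hΦ T (ind (coneMeasure m) (slab M b) x) y).unique (hasSum_sum_of_ne_finset_zero h0)
      rw [h2, ContinuousLinearMap.sum_apply, inner_sum]
      exact Finset.sum_congr rfl (fun n _ => e2 n)
    rw [h1]
    refine wc10_sum N (fun n => ?_)
    exact wc10_cptR _ (wc10_cptL _ (hT.cptL (b + 2)))
  · -- cptR for Φ T
    intro b
    obtain ⟨N, hN⟩ := exists_nat_gt (b + 1)
    have h1 : Φ T * ind (coneMeasure m) (slab M b) = ∑ n ∈ Finset.range N,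
        (V n).toContinuousLinearMap * (T * ind (coneMeasure m) (slab M (b + 2))) *
          (ind (coneMeasure m) (wc10_P σ c n (slab M b)) * star (V n).toContinuousLinearMap *
            ind (coneMeasure m) (slab M b)) := by
      ext1 y
      refine ext_inner_left ℂ (fun x => ?_)
      have e1 : (Φ T * ind (coneMeasure m) (slab M b)) y = Φ T (ind (coneMeasure m) (slab M b) y) := rfl
      rw [e1]
      have e2 : ∀ n, ⟪star (V n).toContinuousLinearMap x,
          T (star (V n).toContinuousLinearMap (ind (coneMeasure m) (slab M b) y))⟫_ℂ =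
          ⟪x, ((V n).toContinuousLinearMap * (T * ind (coneMeasure m) (slab M (b + 2))) *
          (ind (coneMeasure m) (wc10_P σ c n (slab M b)) * star (V n).toContinuousLinearMap *
            ind (coneMeasure m) (slab M b))) y⟫_ℂ := by
        intro n
        rw [ContinuousLinearMap.star_eq_adjoint, ContinuousLinearMap.adjoint_inner_left]
        congr 1
        have e3 : ind (coneMeasure m) (slab M (b + 2)) * ind (coneMeasure m) (wc10_P σ c n (slab M b)) =
            ind (coneMeasure m) (wc10_P σ c n (slab M b)) := wc10_sub' (mP n _) (mS _) (slabP_sub n b)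
        rw [← ContinuousLinearMap.star_eq_adjoint, key n _ (mS b) y]
        show _ = (V n).toContinuousLinearMap (T ((ind (coneMeasure m) (slab M (b + 2)) *
          ind (coneMeasure m) (wc10_P σ c n (slab M b))) _))
        rw [e3]
        rfl
      have h0 : ∀ n ∉ Finset.range N, ⟪star (V n).toContinuousLinearMap x,
          T (star (V n).toContinuousLinearMap (ind (coneMeasure m) (slab M b) y))⟫_ℂ = 0 := by
        intro n hn
        have hn' : b + 1 < n := by
          have : N ≤ n := by simpa using hn
          exact hN.trans_le (by exact_mod_cast this)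
        rw [key n _ (mS b) y, slabP_empty n b hn', ind_empty]
        simp
      have h2 := (hΦ T x (ind (coneMeasure m) (slab M b) y)).unique (hasSum_sum_of_ne_finset_zero h0)
      rw [h2, ContinuousLinearMap.sum_apply, inner_sum]
      exact Finset.sum_congr rfl (fun n _ => e2 n)
    rw [h1]
    refine wc10_sum N (fun n => ?_)
    exact wc10_cptR _ (wc10_cptL _ (hT.cptR (b + 2)))
  · -- propagation of Φ T
    intro A B hA hB hAB
    ext1 y
    refine ext_inner_left ℂ (fun x => ?_)
    have e1 : ⟪x, (ind (coneMeasure m) A * Φ T * ind (coneMeasure m) B) y⟫_ℂ = ⟪ind (coneMeasure m) A x, Φ T (ind (coneMeasure m) B y)⟫_ℂ :=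
      wc10_inner hA x _
    rw [e1]
    have h0 : ∀ n, ⟪star (V n).toContinuousLinearMap (ind (coneMeasure m) A x),
          T (star (V n).toContinuousLinearMap (ind (coneMeasure m) B y))⟫_ℂ = 0 := by
      intro n
      rw [key n A hA x, key n B hB y, ← wc10_inner (mP n A)]
      have h3 : ind (coneMeasure m) (wc10_P σ c n A) * T * ind (coneMeasure m) (wc10_P σ c n B) = 0 := by
        refine hT.prop _ _ (mP n A) (mP n B) ?_
        intro p hp q hq
        obtain ⟨a, ha, hpa⟩ := wc10_mem S hdiam hp
        obtain ⟨b, hb, hqb⟩ := wc10_mem S hdiam hq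
        have h4 := hAB a ha b hb
        have h5 := adm.tri a (push σ n p) b
        have h6 := adm.tri (push σ n p) (push σ n q) b
        have h7 := adm.symm (push σ n q) b
        have h8 := push_lip hσ S n p q
        linarith
      have h4 : (ind (coneMeasure m) (wc10_P σ c n A) * T * ind (coneMeasure m) (wc10_P σ c n B))
        (star (V n).toContinuousLinearMap (ind (coneMeasure m) B y)) = 0 := by rw [h3]; rfl
      have h5 : ind (coneMeasure m) (wc10_P σ c n A) (T (ind (coneMeasure m) (wc10_P σ c n B)
        (star (V n).toContinuousLinearMap (ind (coneMeasure m) B y)))) = 0 := h4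
      rw [h5, inner_zero_right]
    have h2 := hΦ T (ind (coneMeasure m) A x) (ind (coneMeasure m) B y)
    simp only [h0] at h2
    rw [h2.unique hasSum_zero]
    simp
  · -- cptL for V 0 * T
    intro b
    have h1 : ind (coneMeasure m) (slab M b) * ((V 0).toContinuousLinearMap * T) =
        ind (coneMeasure m) (slab M b) * (V 0).toContinuousLinearMap * ind (coneMeasure m) (wc10_P σ c 0 (slab M b)) *
          (ind (coneMeasure m) (slab M (b + 2)) * T) := by
      calc ind (coneMeasure m) (slab M b) * ((V 0).toContinuousLinearMap * T)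
          = (ind (coneMeasure m) (slab M b) * (V 0).toContinuousLinearMap) * T := by
            rw [mul_assoc]
        _ = (ind (coneMeasure m) (slab M b) * (V 0).toContinuousLinearMap *
              ind (coneMeasure m) (wc10_P σ c 0 (slab M b))) * T := by
            conv_lhs => rw [wc10_adj' hσ hc hV 0 (mS b)]
        _ = (ind (coneMeasure m) (slab M b) * (V 0).toContinuousLinearMap *
              (ind (coneMeasure m) (wc10_P σ c 0 (slab M b)) *
                ind (coneMeasure m) (slab M (b + 2)))) * T := by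
            rw [wc10_sub (mP 0 _) (mS _) (slabP_sub 0 b)]
        _ = _ := by simp only [mul_assoc]
    rw [h1]
    exact wc10_cptL _ (hT.cptL (b + 2))
  · intro b
    rw [mul_assoc]
    exact wc10_cptL _ (hT.cptR b)
  · intro A B hA hB hAB
    have h3 : ind (coneMeasure m) (wc10_P σ c 0 A) * T * ind (coneMeasure m) B = 0 := by
      refine hT.prop _ _ (mP 0 A) hB ?_
      intro p hp q hq
      obtain ⟨a, ha, hpa⟩ := wc10_mem S hdiam hp
      rw [push_zero hσ] at hpa
      have h4 := hAB a ha q hq
      have h5 := adm.tri a p q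
      linarith
    calc ind (coneMeasure m) A * ((V 0).toContinuousLinearMap * T) * ind (coneMeasure m) B
        = (ind (coneMeasure m) A * (V 0).toContinuousLinearMap) * T * ind (coneMeasure m) B := by simp only [mul_assoc]
      _ = (ind (coneMeasure m) A * (V 0).toContinuousLinearMap) *
            (ind (coneMeasure m) (wc10_P σ c 0 A) * T * ind (coneMeasure m) B) := by
          conv_lhs => rw [wc10_adj' hσ hc hV 0 hA]
          simp only [mul_assoc]
      _ = 0 := by rw [h3, mul_zero]
  · -- the operator w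
    have wprop : ∀ A B : Set (Cone M), MeasurableSet A → MeasurableSet B →
        (∀ x ∈ A, ∀ y ∈ B, 6 < warpDist S x y) → ind (coneMeasure m) A * w * ind (coneMeasure m) B = 0 := by
      intro A B hA hB hAB
      ext1 y
      refine ext_inner_left ℂ (fun x => ?_)
      have e1 : ⟪x, (ind (coneMeasure m) A * w * ind (coneMeasure m) B) y⟫_ℂ = ⟪ind (coneMeasure m) A x, w (ind (coneMeasure m) B y)⟫_ℂ :=
        wc10_inner hA x _
      rw [e1]
      have hd : ⟪ind (coneMeasure m) A x, ind (coneMeasure m) B y⟫_ℂ = 0 := by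
        refine disj A B hA hB ?_ x y
        rw [Set.disjoint_left]
        intro p hp hq
        have h1 := hAB p hp p hq
        rw [adm.self] at h1
        linarith
      have h0 : ∀ n, ⟪star (V (n + 1)).toContinuousLinearMap (ind (coneMeasure m) A x),
            star (V n).toContinuousLinearMap (ind (coneMeasure m) B y)⟫_ℂ = 0 := by
        intro n
        rw [key (n + 1) A hA x, key n B hB y]
        refine disj _ _ (mP _ A) (mP _ B) ?_ _ _
        rw [Set.disjoint_left]
        intro p hp hq
        obtain ⟨a, ha, hpa⟩ := wc10_mem S hdiam hp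
        obtain ⟨b, hb, hqb⟩ := wc10_mem S hdiam hq
        have h4 := hAB a ha b hb
        have h5 := adm.tri a (push σ (n + 1) p) b
        have h6 := adm.tri (push σ (n + 1) p) (push σ n p) b
        have h7 := adm.symm (push σ n p) b
        have h9 := adm.symm (push σ (n + 1) p) (push σ n p)
        have h8 := push_step hσ S n p
        linarith
      have h0' : ∀ n, ⟪star (V n).toContinuousLinearMap (ind (coneMeasure m) A x),
            star (V n).toContinuousLinearMap (ind (coneMeasure m) B y)⟫_ℂ = 0 := by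
        intro n
        rw [key n A hA x, key n B hB y]
        refine disj _ _ (mP _ A) (mP _ B) ?_ _ _
        rw [Set.disjoint_left]
        intro p hp hq
        obtain ⟨a, ha, hpa⟩ := wc10_mem S hdiam hp
        obtain ⟨b, hb, hqb⟩ := wc10_mem S hdiam hq
        have h4 := hAB a ha b hb
        have h5 := adm.tri a (push σ n p) b
        have h7 := adm.symm (push σ n p) b
        linarith
      have h2 := hw (ind (coneMeasure m) A x) (ind (coneMeasure m) B y)
      simp only [h0, h0', hd, sub_zero] at h2
      rw [h2.unique hasSum_zero]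
      simp
    -- the measurable neighbourhood
    let N : Set (Cone M) → Set (Cone M) := fun A =>
      c ⁻¹' (c '' {p | ∃ a ∈ A, warpDist S a p ≤ 6})
    have mN : ∀ A, MeasurableSet (N A) := fun A => hc MeasurableSpace.measurableSet_top
    have wloc : ∀ A, MeasurableSet A → ind (coneMeasure m) A * w = ind (coneMeasure m) A * w * ind (coneMeasure m) (N A) := by
      intro A hA
      refine wc10_loc (mN A) w (wprop A _ hA (mN A).compl ?_)
      intro a ha p hp
      by_contra hcon
      push Not at hcon
      exact hp ⟨p, ⟨a, ha, hcon⟩, rfl⟩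
    have Nnear : ∀ A, ∀ p ∈ N A, ∃ a ∈ A, warpDist S a p ≤ 8 := by
      rintro A p ⟨q, ⟨a, ha, haq⟩, hq⟩
      have h1 : warpDist S q p ≤ 2 := (adm.le_cone _ _).trans (hdiam _ _ hq)
      have h2 := adm.tri a q p
      exact ⟨a, ha, by linarith⟩
    refine ⟨R + 8, ?_, ?_, ?_⟩
    · intro b
      have hsub : N (slab M b) ⊆ slab M (b + 8) := by
        intro p hp
        obtain ⟨a, ha, had⟩ := Nnear _ p hp
        have h1 := (abs_le_warpDist S a p).trans had
        have h3 : (a.2 : ℝ) ≤ b := ha
        have h4 := (abs_le.1 h1).1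
        show (p.2 : ℝ) ≤ b + 8
        linarith
      have h1 : ind (coneMeasure m) (slab M b) * (w * T) =
          ind (coneMeasure m) (slab M b) * w * ind (coneMeasure m) (N (slab M b)) * (ind (coneMeasure m) (slab M (b + 8)) * T) := by
        calc ind (coneMeasure m) (slab M b) * (w * T)
            = (ind (coneMeasure m) (slab M b) * w) * T := by rw [mul_assoc]
          _ = (ind (coneMeasure m) (slab M b) * w *
                ind (coneMeasure m) (N (slab M b))) * T := by
              conv_lhs => rw [wloc _ (mS b)]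
          _ = (ind (coneMeasure m) (slab M b) * w *
                (ind (coneMeasure m) (N (slab M b)) *
                  ind (coneMeasure m) (slab M (b + 8)))) * T := by
              rw [wc10_sub (mN _) (mS _) hsub]
          _ = _ := by simp only [mul_assoc]
      rw [h1]
      exact wc10_cptL _ (hT.cptL (b + 8))
    · intro b
      rw [mul_assoc]
      exact wc10_cptL _ (hT.cptR b)
    · intro A B hA hB hAB
      have h3 : ind (coneMeasure m) (N A) * T * ind (coneMeasure m) B = 0 := by
        refine hT.prop _ _ (mN A) hB ?_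
        intro p hp q hq
        obtain ⟨a, ha, hpa⟩ := Nnear _ p hp
        have h4 := hAB a ha q hq
        have h5 := adm.tri a p q
        linarith
      calc ind (coneMeasure m) A * (w * T) * ind (coneMeasure m) B
          = (ind (coneMeasure m) A * w) * T * ind (coneMeasure m) B := by simp only [mul_assoc]
        _ = (ind (coneMeasure m) A * w) * (ind (coneMeasure m) (N A) * T * ind (coneMeasure m) B) := by
            conv_lhs => rw [wloc A hA]
            simp only [mul_assoc]
        _ = 0 := by rw [h3, mul_zero]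

end WC10

end Pool.Agent.Helper84.WC
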